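import Mathlib
import Pool.Agent.Y928.PL.Finite
import Pool.Agent.TH900.YM.Meas

/-!
# The digits of `ζ(9), …, ζ(21)`

The linear complexity of the first `L` digits of a number `x` in base `b` is the least order of a
linear recurrence over `ℚ` which they satisfy; `x` is rational if and only if it is bounded for
`L → ∞`. Here it is shown that the seven numbers `ζ(9), …, ζ(21)` have large linear complexity
together: jointly (one recurrence for all the digit sequences in one base, also after some changes of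
digits), and separately, each number in a base of its own, and for all representations by bounded
integer digits.
-/

set_option autoImplicit false

namespace Pool.Agent.Results.MP_db0fbf_nt.DigitComplexity

open Finset

/-- the `i`-th digit of `x` after the point in base `b` -/
noncomputable def digit (b : ℕ) (x : ℝ) (i : ℕ) : ℤ := ⌊x * (b : ℝ) ^ i⌋ % (b : ℤ)

/-- The terms `s_1, …, s_L` satisfy the linear recurrence
`s_(i+m) = c_0 s_i + … + c_(m-1) s_(i+m-1)` for `1 ≤ i ≤ L - m`. -/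
def Recurrence (s : ℕ → ℤ) (c : ℕ → ℚ) (L m : ℕ) : Prop :=
  ∀ i : ℕ, 1 ≤ i → i + m ≤ L → (s (i + m) : ℚ) = ∑ j ∈ range m, c j * (s (i + j) : ℚ)

/-- the linear complexity of `s_1, …, s_L` -/
noncomputable def complexity (s : ℕ → ℤ) (L : ℕ) : ℕ :=
  sInf {m | ∃ c : ℕ → ℚ, Recurrence s c L m}

/-- the joint `k`-error linear complexity of the first `L` digits of the numbers `x i`, `i ∈ T`, in
base `b`: the least order of a common recurrence for the first `L` terms of sequences `s i` of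
integers between `-b` and `b` which agree with the digits of the numbers `x i` in all but at most
`k` of the places `1, …, L` -/
noncomputable def jointComplexity (b : ℕ) (T : Finset ℕ) (x : ℕ → ℝ) (k L : ℕ) : ℕ :=
  sInf {m | ∃ (s : ℕ → ℕ → ℤ) (c : ℕ → ℚ) (E : Finset ℕ), E.card ≤ k ∧ ∀ i ∈ T,
    (∀ l, |s i l| ≤ b) ∧ (∀ l ∈ Icc 1 L, l ∉ E → s i l = digit b (x i) l) ∧
    Recurrence (s i) c L m}

/-- the function `m + C √((m+1) log (m+2))` -/
noncomputable def F (C : ℝ) (m : ℕ) : ℝ :=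
  m + C * Real.sqrt (((m : ℝ) + 1) * Real.log ((m : ℝ) + 2))

/-- the odd numbers from `9` to `21` -/
def T : Finset ℕ := {9, 11, 13, 15, 17, 19, 21}

/-- `ζ(i) = ∑ 1/(n+1)^i` -/
noncomputable def zeta (i : ℕ) : ℝ := ∑' n : ℕ, 1 / ((n : ℝ) + 1) ^ i

/-- **The digits of `ζ(9), …, ζ(21)`.** -/
theorem result : ∀ h : ℕ, ∃ C : ℝ, 0 < C ∧
    -- one recurrence for the digits of all these numbers in base `b`, up to `k` errors
    (∀ b : ℕ, 2 ≤ b → ∀ k L : ℕ, (L : ℝ) ≤ (∑ i ∈ range (k + 1), (1038 : ℝ) ^ (i + 1)) *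
      F C (jointComplexity b T zeta k L)) ∧
    -- each of these numbers in its own base `b j`, by integer digits bounded by `(b j) ^ h`
    ∀ b : ℕ → ℕ, (∀ j ∈ T, 2 ≤ b j) → ∀ s : ℕ → ℕ → ℤ,
      (∀ j ∈ T, ∀ i, |s j i| ≤ ((b j ^ h : ℕ) : ℤ)) →
      (∀ j ∈ T, ∃ n : ℤ,
        HasSum (fun i : ℕ => (s j (i + 1) : ℝ) / (b j : ℝ) ^ (i + 1)) (zeta j - n)) →
      ∀ L : ℕ → ℕ, ∃ j ∈ T, (L j : ℝ) * Real.log (b j) ≤
        F C (complexity (s j) (L j)) * Real.log (b j) +
          1038 * ∑ i ∈ T, F C (complexity (s i) (L i)) * Real.log (b i) := by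
  intro h
  obtain ⟨c, hc, hmeas⟩ := Pool.Agent.TH900.YM.measure
  obtain ⟨C, hC, h1, h2⟩ := Pool.Agent.Y928.PL.finite_family T ⟨9, by decide⟩ zeta 1038 c
    (by norm_num) hc (by
      intro q hq p
      obtain ⟨j, hj, h1⟩ := hmeas p q hq
      refine ⟨j, hj, ?_⟩
      have hq0 : (0 : ℝ) < q := by exact_mod_cast hq
      have e1 : (q : ℝ) ^ ((1038 : ℝ) - 1) = (q : ℝ) ^ 1037 := by
        rw [← Real.rpow_natCast]
        norm_num
      have e2 : |(q : ℝ) * zeta j - p j| = q * |zeta j - (p j : ℝ) / q| := by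
        rw [← abs_of_pos hq0, ← abs_mul, abs_of_pos hq0]
        congr 1
        field_simp
      have h2 : c / (q : ℝ) ^ 1038 ≤ |zeta j - (p j : ℝ) / q| := h1
      rw [div_le_iff₀ (by positivity)] at h2
      rw [e1, e2]
      calc c ≤ |zeta j - (p j : ℝ) / q| * (q : ℝ) ^ 1038 := h2
        _ = (q : ℝ) ^ 1037 * (q * |zeta j - (p j : ℝ) / q|) := by ring) h
  exact ⟨C, hC, h1, h2⟩

end Pool.Agent.Results.MP_db0fbf_nt.DigitComplexity
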